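import Pool.Agent.Helper22.TW.Stmts

/-!
# Module CON : two embeddings of a quadratic point
-/

set_option autoImplicit false

namespace Pool.Agent.Helper22.TW

open Pool.Agent.Helper14.BSC Polynomial

section

variable {F k Ω : Type} [Field F] [Field k] [Field Ω] [Algebra F k] [Algebra F Ω] [Algebra k Ω]
  [IsScalarTower F k Ω] {t : k} {D : Sec k Ω}

theorem con_ji (B : Ext (F := F) t D) (a : F) :
    B.j (algebraMap F k a) = algebraMap B.F' B.k' (B.i a) := by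
  apply (algebraMap B.k' Ω).injective
  rw [B.hj, ← IsScalarTower.algebraMap_apply F k Ω, ← IsScalarTower.algebraMap_apply B.F' B.k' Ω,
    B.hi]

omit [Algebra F k] [Algebra F Ω] [IsScalarTower F k Ω] [Field F] in
theorem con_fix (D : Sec k Ω) (x : LL D) (g : GG k Ω) : D.s g (x : Ω) = x :=
  x.2 g (fun a ha => ha.elim)

omit [Algebra F k] [IsScalarTower F k Ω] in
theorem con_mem (B : Ext (F := F) t D) (x : LL D) : (x : Ω) ∈ LL B.D' :=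
  fun g _ => B.fix x (con_fix D x) g

end

/-- the order at `v` of an element of `F(t)` -/
theorem con_ord (hFRAC : ST_FRAC) (hORDP : ST_ORDP) (F k : Type) [Field F] [Field k] [Algebra F k]
    (t : k) (hgen : Gen F k t) (v : F) (c : k) (hc : c ≠ 0) :
    ∃ m : ℤ, ∀ (p : ℕ) [Fact p.Prime] (σ₀ : F →+* ℂ_[p]), ∃ (C₀ ε : ℝ), 0 < C₀ ∧ 0 < ε ∧
      ∀ σ : k →+* ℂ_[p], (∀ a : F, σ (algebraMap F k a) = σ₀ a) →
        0 < ‖σ t - σ₀ v‖ → ‖σ t - σ₀ v‖ < ε → ‖σ c‖ = C₀ * ‖σ t - σ₀ v‖ ^ m := by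
  obtain ⟨A, B, hB, hBt, hcAB⟩ := hFRAC F k t hgen c
  have hA : A ≠ 0 := by
    rintro rfl
    apply hc
    rw [hcAB, map_zero, zero_div]
  obtain ⟨uA, huA, hA2⟩ := hORDP F k t hgen v A hA
  obtain ⟨uB, huB, hB2⟩ := hORDP F k t hgen v B hB
  refine ⟨(A.rootMultiplicity v : ℤ) - (B.rootMultiplicity v : ℤ), fun p _ σ₀ => ?_⟩
  obtain ⟨εA, hεA, hA3⟩ := hA2 p σ₀
  obtain ⟨εB, hεB, hB3⟩ := hB2 p σ₀
  have h1 : 0 < ‖σ₀ uA‖ := norm_pos_iff.2 ((map_ne_zero σ₀).2 huA)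
  have h2 : 0 < ‖σ₀ uB‖ := norm_pos_iff.2 ((map_ne_zero σ₀).2 huB)
  refine ⟨‖σ₀ uA‖ / ‖σ₀ uB‖, min εA εB, div_pos h1 h2, lt_min hεA hεB, ?_⟩
  intro σ hσ h0 h3
  rw [hcAB, map_div₀, norm_div, hA3 σ hσ h0 (lt_of_lt_of_le h3 (min_le_left _ _)),
    hB3 σ hσ h0 (lt_of_lt_of_le h3 (min_le_right _ _)), zpow_sub₀ h0.ne', zpow_natCast,
    zpow_natCast]
  field_simp

/-- places near a point -/
theorem con_place (hRK : ST_RK) (hEXK : ST_EXK) (hTRA : ST_TRA)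
    {F k Ω : Type} [Field F] [Field k] [Field Ω] [Algebra F k] [Algebra F Ω] [Algebra k Ω]
    [IsScalarTower F k Ω] [IsAlgClosed Ω] {t : k} {D : Sec k Ω} (hgen : Gen F k t)
    (B : Ext (F := F) t D) (p : ℕ) [Fact p.Prime] (ι : B.F' →+* ℂ_[p])
    (E E₂ : IntermediateField ℚ_[p] ℂ_[p]) (hE₂ : FiniteDimensional ℚ_[p] E₂)
    (hle : E ≤ E₂) (hι : ∀ x, ι x ∈ E₂) (hιE : ∀ a : F, ι (B.i a) ∈ E) (v : B.F') (hv : ι v ∈ E)
    (z : ℂ_[p]) (hz : z ∈ E) (hz0 : z ≠ 0) :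
    ∃ σ' : B.k' →+* ℂ_[p], (∀ x, σ' (algebraMap B.F' B.k' x) = ι x) ∧ ‖σ' B.t' - ι v‖ = ‖z‖ ∧
      (∀ x, σ' x ∈ E₂) ∧ (∀ x, (σ'.comp B.j) x ∈ E) ∧ Nonempty (Place B.D' p σ') := by
  obtain ⟨τ, hτE, -, hτ, hτt⟩ := hTRA B.F' B.fg p ι E (ι v) z hv hz hz0 ∅ Set.countable_empty
  obtain ⟨σ', hσ1, hσ2⟩ := (hEXK B.F' B.k' B.t' B.gen p E₂).2.2 ι τ hτt
  have h1 : ∀ x, σ' x ∈ E₂ := (hEXK B.F' B.k' B.t' B.gen p E₂).1 σ' (fun a => by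
    rw [hσ1]; exact hι a) (by rw [hσ2]; exact hle hτE)
  have h2 : ∀ x, (σ'.comp B.j) x ∈ E := (hEXK F k t hgen p E).1 (σ'.comp B.j) (fun a => by
    rw [RingHom.comp_apply, con_ji, hσ1]; exact hιE a) (by
    rw [RingHom.comp_apply, B.ht, hσ2]; exact hτE)
  obtain ⟨P, -⟩ := hRK B.k' Ω B.D' p σ' E₂ hE₂ h1
  exact ⟨σ', hσ1, by rw [hσ2]; exact hτ, h1, h2, ⟨P⟩⟩

theorem con_core (hPL : ST_PL) (hKUM : ST_KUM) (hBOT : ST_BOT) (hCA : ST_CA) (hFRAC : ST_FRAC)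
    (hORDP : ST_ORDP)
    {F k Ω : Type} [Field F] [Field k] [Field Ω] [Algebra F k] [Algebra F Ω] [Algebra k Ω]
    [IsScalarTower F k Ω] [CharZero F] [CharZero k] [IsAlgClosed Ω] {t : k} {D : Sec k Ω}
    (hgen : Gen F k t) (B : Ext (F := F) t D) (p : ℕ) [Fact p.Prime] (ι₁ ι₂ : B.F' →+* ℂ_[p])
    (E E₂ : IntermediateField ℚ_[p] ℂ_[p]) (hE : FiniteDimensional ℚ_[p] E)
    (hE₂ : FiniteDimensional ℚ_[p] E₂) (hle : E ≤ E₂)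
    (hι₂ : ∀ x, ι₂ x ∈ E₂) (hιE : ∀ a : F, ι₂ (B.i a) ∈ E) (v : B.F') (hv : ι₂ v ∈ E)
    (f : LL D) (hinf : ∃ ε : ℝ, 0 < ε ∧ ∀ σ : k →+* ℂ_[p],
      (∀ a : F, σ (algebraMap F k a) = ι₂ (B.i a)) → (∀ x, σ x ∈ E) → ‖σ t - ι₂ v‖ < ε →
      ∀ P : Place D p σ, f ∉ P.C) (ϖ : ℂ_[p]) (hϖ : ϖ ∈ E) (hϖ0 : 0 < ‖ϖ‖) (hϖ1 : ‖ϖ‖ < 1)
    (f' : LL B.D') (hf' : (f' : Ω) = f) (hconst : ∀ c : B.k', f' ≠ algebraMap B.k' (LL B.D') c)
    (a b : B.k') (n : ℕ) (hn : 0 < n) :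
    ∃ (m : ℤ) (C₀ ε : ℝ), 0 < C₀ ∧ 0 < ε ∧ (∃ w ∈ E₂, w ≠ 0 ∧ ‖ϖ‖ ^ m = ‖w‖ ^ n) ∧
      ∀ σ' : B.k' →+* ℂ_[p], (∀ x, σ' (algebraMap B.F' B.k' x) = ι₁ x) → (∀ x, σ' x ∈ E₂) →
        0 < ‖σ' B.t' - ι₁ v‖ → ‖σ' B.t' - ι₁ v‖ < ε → ∀ (P' : Place B.D' p σ') (hf : f' ∈ P'.C),
        P'.φ ⟨f', hf⟩ ≠ σ' a → P'.φ ⟨f', hf⟩ ≠ σ' b → ∃ w ∈ E₂, w ≠ 0 ∧
          C₀ * ‖σ' B.t' - ι₁ v‖ ^ m =
            ‖P'.φ ⟨f', hf⟩ - σ' a‖ / ‖P'.φ ⟨f', hf⟩ - σ' b‖ * ‖w‖ ^ n := by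
  have ha0 : f' - algebraMap B.k' (LL B.D') a ≠ 0 := sub_ne_zero.2 (hconst a)
  have hb0 : f' - algebraMap B.k' (LL B.D') b ≠ 0 := sub_ne_zero.2 (hconst b)
  obtain ⟨c1, hc1, g, hg, hr⟩ := hKUM B.k' Ω B.D' ∅ n hn
    ((f' - algebraMap B.k' (LL B.D') a) / (f' - algebraMap B.k' (LL B.D') b)) (div_ne_zero ha0 hb0)
  obtain ⟨c, hc⟩ := hBOT B.k' Ω (c1 : Acl B.k' Ω) c1.2
  have hinc : inc B.D' ∅ c1 = algebraMap B.k' (LL B.D') c := by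
    apply Subtype.ext
    rw [coe_inc, hc]
    rfl
  rw [hinc] at hr
  have hc0 : c ≠ 0 := by
    rintro rfl
    apply hc1
    apply Subtype.ext
    rw [hc, map_zero]
    rfl
  obtain ⟨m, hm⟩ := con_ord hFRAC hORDP B.F' B.k' B.t' B.gen v c hc0
  obtain ⟨C₁, ε₁, hC₁, hε₁, h1⟩ := hm p ι₁
  obtain ⟨C₂, ε₂, hC₂, hε₂, h2⟩ := hm p ι₂
  refine ⟨m, C₁, ε₁, hC₁, hε₁, ?_, ?_⟩
  · exact hCA F k Ω t hgen D B p ι₂ E E₂ hE hE₂ hle hι₂ hιE v hv f hinf ϖ hϖ hϖ0 hϖ1 f' hf' a b n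
      hn c g hr m C₂ hC₂ ⟨ε₂, hε₂, h2⟩
  · intro σ' hσ hσE h0 hε P' hf hfa hfb
    obtain ⟨hA, hA2⟩ := P'.base a
    obtain ⟨hB, hB2⟩ := P'.base b
    have hsa : f' - algebraMap B.k' (LL B.D') a ∈ P'.C := sub_mem hf hA
    have hsb : f' - algebraMap B.k' (LL B.D') b ∈ P'.C := sub_mem hf hB
    have ea : P'.φ ⟨_, hsa⟩ = P'.φ ⟨f', hf⟩ - σ' a := by
      rw [← hA2, ← map_sub]
      rfl
    have eb : P'.φ ⟨_, hsb⟩ = P'.φ ⟨f', hf⟩ - σ' b := by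
      rw [← hB2, ← map_sub]
      rfl
    have na : P'.φ ⟨f', hf⟩ - σ' a ≠ 0 := sub_ne_zero.2 hfa
    have nb : P'.φ ⟨f', hf⟩ - σ' b ≠ 0 := sub_ne_zero.2 hfb
    have hib : (f' - algebraMap B.k' (LL B.D') b)⁻¹ ∈ P'.C := by
      by_contra hcon
      apply nb
      rw [← eb]
      exact (P'.ker ⟨_, hsb⟩).2 (Or.inr hcon)
    have hdiv : (f' - algebraMap B.k' (LL B.D') a) / (f' - algebraMap B.k' (LL B.D') b) ∈ P'.C := by
      rw [div_eq_mul_inv]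
      exact mul_mem hsa hib
    have ei : P'.φ ⟨_, hib⟩ = (P'.φ ⟨f', hf⟩ - σ' b)⁻¹ := by
      apply eq_inv_of_mul_eq_one_left
      rw [← eb, ← map_mul]
      have : (⟨_, hib⟩ * ⟨_, hsb⟩ : P'.C) = 1 := Subtype.ext (inv_mul_cancel₀ hb0)
      rw [this, map_one]
    have ed : P'.φ ⟨_, hdiv⟩ = (P'.φ ⟨f', hf⟩ - σ' a) / (P'.φ ⟨f', hf⟩ - σ' b) := by
      have h3 : (⟨_, hdiv⟩ : P'.C) = ⟨_, hsa⟩ * ⟨_, hib⟩ := Subtype.ext (div_eq_mul_inv _ _)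
      rw [h3, map_mul, ea, ei, div_eq_mul_inv]
    obtain ⟨w, hw, hw0, hwe⟩ := (hPL B.k' Ω B.D' p σ' E₂ hE₂ hσE P').2 ⟨_, hdiv⟩
      (by rw [ed]; exact div_ne_zero na nb) n hn c g hr
    refine ⟨w, hw, hw0, ?_⟩
    rw [← h1 σ' hσ h0 hε, hwe, ed, norm_mul, norm_div, norm_pow]

theorem con_zpow {x : ℝ} (h0 : 0 < x) (h1 : x < 1) {a b : ℤ} (h : x ^ a = x ^ b) : a = b :=
  zpow_right_injective₀ h0 h1.ne h

theorem con_sq {F A B : Type} [Field F] [Field A] [Field B] (δ : F) (hδ : ¬ IsSquare δ)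
    (i : F →+* A) (σ : F →+* B) (s : A) (hs : s ^ 2 = i δ) (w : B) (hw : w ^ 2 = σ δ)
    (G : F[X]) (hG : G.eval₂ i s = 0) : G.eval₂ σ w = 0 := by
  have hm : (X ^ 2 - C δ : F[X]).Monic := monic_X_pow_sub_C δ two_ne_zero
  have hdeg : (X ^ 2 - C δ : F[X]).natDegree = 2 := natDegree_X_pow_sub_C
  have hG2 := modByMonic_add_div G (X ^ 2 - C δ)
  have hlt : (G %ₘ (X ^ 2 - C δ)).natDegree ≤ 1 := by
    have h := natDegree_modByMonic_lt G hm (by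
      intro h
      rw [h, natDegree_one] at hdeg
      omega)
    omega
  have hr := eq_X_add_C_of_natDegree_le_one hlt
  set R := G %ₘ (X ^ 2 - C δ) with hR
  have e1 : R.eval₂ i s = 0 := by
    rw [← hG2, eval₂_add, eval₂_mul] at hG
    have : (X ^ 2 - C δ : F[X]).eval₂ i s = 0 := by
      rw [eval₂_sub, eval₂_X_pow, eval₂_C, hs, sub_self]
    rw [this, zero_mul, add_zero] at hG
    exact hG
  rw [hr, eval₂_add, eval₂_mul, eval₂_C, eval₂_X, eval₂_C] at e1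
  have hb : R.coeff 1 = 0 := by
    by_contra hb
    apply hδ
    have hib : i (R.coeff 1) ≠ 0 := (map_ne_zero i).2 hb
    have h2 : s = i (-(R.coeff 0) / R.coeff 1) := by
      rw [map_div₀, map_neg, eq_div_iff hib]
      linear_combination e1
    refine ⟨-(R.coeff 0) / R.coeff 1, i.injective ?_⟩
    rw [map_mul, ← h2, ← hs, sq]
  rw [hb, map_zero, zero_mul, zero_add] at e1
  have ha : R.coeff 0 = 0 := (map_eq_zero i).1 e1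
  have hR0 : R = 0 := by
    rw [hr, hb, ha, map_zero, zero_mul, zero_add]
  rw [← hG2, hR0, zero_add, eval₂_mul, eval₂_sub, eval₂_X_pow, eval₂_C, hw, sub_self, zero_mul]

theorem con_min {T : Type} (Λ : Finset T) (f : T → ℝ) :
    (∀ l ∈ Λ, 0 < f l) → ∃ ε : ℝ, 0 < ε ∧ ∀ l ∈ Λ, ε ≤ f l := by
  classical
  refine Finset.induction_on Λ ?_ ?_
  · intro _
    exact ⟨1, one_pos, fun l hl => by simp at hl⟩
  · intro a s _ ih h
    obtain ⟨ε, h1, h2⟩ := ih fun l hl => h l (Finset.mem_insert_of_mem hl)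
    refine ⟨min ε (f a), lt_min h1 (h a (Finset.mem_insert_self _ _)), fun l hl => ?_⟩
    rcases Finset.mem_insert.1 hl with rfl | hl
    · exact min_le_right _ _
    · exact (min_le_left _ _).trans (h2 l hl)

theorem con_alg {F Ω : Type} [Field F] [Field Ω] [Algebra F Ω] (H : F[X][X]) (v x : Ω)
    (hv : IsAlgebraic F v) (hx : x ∈ (H.map (eval₂RingHom (algebraMap F Ω) v)).roots) :
    IsAlgebraic F x := by
  obtain ⟨h1, h2⟩ := (mem_roots').1 hx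
  have hvK : v ∈ algebraicClosure F Ω := mem_algebraicClosure_iff.2 hv
  let q : (algebraicClosure F Ω)[X] :=
    H.map (eval₂RingHom (algebraMap F (algebraicClosure F Ω)) ⟨v, hvK⟩)
  have hq : q.map (algebraMap (algebraicClosure F Ω) Ω)
      = H.map (eval₂RingHom (algebraMap F Ω) v) := by
    change (H.map _).map _ = _
    rw [Polynomial.map_map]
    congr 1
    refine ringHom_ext (fun a => ?_) ?_
    · rw [RingHom.comp_apply, coe_eval₂RingHom, eval₂_C, coe_eval₂RingHom, eval₂_C]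
      rfl
    · rw [RingHom.comp_apply, coe_eval₂RingHom, eval₂_X, coe_eval₂RingHom, eval₂_X]
      rfl
  have hq0 : q ≠ 0 := by
    intro h
    rw [h, Polynomial.map_zero] at hq
    exact h1 hq.symm
  have hx2 : IsAlgebraic (algebraicClosure F Ω) x := by
    refine ⟨q, hq0, ?_⟩
    rw [aeval_def, eval₂_eq_eval_map, hq]
    exact h2
  exact hx2.restrictScalars F

/-- numerical contradiction -/
theorem con_num {Λ : Type} [DecidableEq Λ] (L : Finset Λ) (q r : ℝ) (hq0 : 0 < q) (hr0 : 0 < r)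
    (hr1 : r < 1) (e : ℕ) (he : 0 < e) (hqr : q = r ^ e) (n : ℕ) (hn : n.Prime) (hne : e < n)
    (hnL : L.card < n) (o : Λ → ℕ) (ho : ∀ l ∈ L, 0 < o l) (hon : ∀ l ∈ L, o l < n)
    (m : Λ → ℤ) (c c' C₀ : Λ → ℝ) (hc : ∀ l ∈ L, 0 < c l) (hc' : ∀ l ∈ L, 0 < c' l)
    (hC : ∀ l ∈ L, 0 < C₀ l) (hm : ∀ l ∈ L, ∃ j : ℤ, q ^ (m l) = (r ^ j) ^ n) (M₀ : ℕ)
    (hstep : ∀ i : Fin (L.card + 1), ∃ l ∈ L, ∃ j : ℤ,
      C₀ l * (q ^ (M₀ + (i : ℕ))) ^ (m l) =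
        (c l * (q ^ (M₀ + (i : ℕ))) ^ (o l)) / c' l * (r ^ j) ^ n) : False := by
  choose l hl j hj using hstep
  obtain ⟨x, -, y, -, hxy, hlxy⟩ := Finset.exists_ne_map_eq_of_card_lt_of_maps_to
    (s := (Finset.univ : Finset (Fin (L.card + 1)))) (t := L) (f := l)
    (by rw [Finset.card_univ, Fintype.card_fin]; omega) (fun i _ => hl i)
  have main : ∀ x y : Fin (L.card + 1), x < y → l x = l y → False := by
    intro x y hxy hlxy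
    have h1 := hj x
    have h2 := hj y
    rw [← hlxy] at h2
    obtain ⟨jm, hjm⟩ := hm (l x) (hl x)
    have hc1 := hc (l x) (hl x)
    have hc2 := hc' (l x) (hl x)
    have hC1 := hC (l x) (hl x)
    generalize hA : q ^ (M₀ + (x : ℕ)) = A at h1
    generalize hB : q ^ (M₀ + (y : ℕ)) = B at h2
    have hA0 : 0 < A := by rw [← hA]; positivity
    have hB0 : 0 < B := by rw [← hB]; positivity
    have hx0 : 0 < (r ^ j x) ^ n := pow_pos (zpow_pos hr0 _) _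
    have hy0 : 0 < (r ^ j y) ^ n := pow_pos (zpow_pos hr0 _) _
    have h3 : B ^ (m (l x)) * A ^ (o (l x)) * (r ^ j x) ^ n =
        A ^ (m (l x)) * B ^ (o (l x)) * (r ^ j y) ^ n := by
      have e1 : A ^ (m (l x)) = c (l x) * A ^ (o (l x)) / c' (l x) * (r ^ j x) ^ n / C₀ (l x) := by
        rw [← h1]; field_simp
      have e2 : B ^ (m (l x)) = c (l x) * B ^ (o (l x)) / c' (l x) * (r ^ j y) ^ n / C₀ (l x) := by
        rw [← h2]; field_simp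
      rw [e1, e2]
      ring
    have h4 : (r ^ ((e : ℤ) * (M₀ + (y : ℕ)) * m (l x) + (e : ℤ) * (M₀ + (x : ℕ)) * (o (l x) : ℤ)
        + j x * n) : ℝ) = r ^ ((e : ℤ) * (M₀ + (x : ℕ)) * m (l x)
        + (e : ℤ) * (M₀ + (y : ℕ)) * (o (l x) : ℤ) + j y * n) := by
      have hA2 : A = r ^ ((e : ℤ) * (M₀ + (x : ℕ))) := by
        rw [← hA, hqr, ← pow_mul, ← zpow_natCast]
        push_cast
        rfl
      have hB2 : B = r ^ ((e : ℤ) * (M₀ + (y : ℕ))) := by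
        rw [← hB, hqr, ← pow_mul, ← zpow_natCast]
        push_cast
        rfl
      rw [zpow_add₀ hr0.ne', zpow_add₀ hr0.ne', zpow_add₀ hr0.ne', zpow_add₀ hr0.ne',
        zpow_mul r _ (m (l x)), zpow_mul r _ (m (l x)), zpow_mul r _ (o (l x) : ℤ),
        zpow_mul r _ (o (l x) : ℤ), zpow_mul r (j x), zpow_mul r (j y), ← hA2, ← hB2]
      simp only [zpow_natCast]
      exact h3
    have h5 := con_zpow hr0 hr1 h4
    have h6 : (e : ℤ) * m (l x) = jm * n := by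
      apply con_zpow hr0 hr1
      rw [zpow_mul, zpow_mul, zpow_natCast, zpow_natCast, ← hqr]
      exact hjm
    have hnz : Prime (n : ℤ) := Nat.prime_iff_prime_int.1 hn
    have hdvd : ∀ k : ℕ, 0 < k → k < n → ¬ (n : ℤ) ∣ (k : ℤ) := by
      intro k h1 h2 h3
      have := Nat.le_of_dvd h1 (Int.natCast_dvd_natCast.1 h3)
      omega
    have h7 : (n : ℤ) ∣ m (l x) := by
      have : (n : ℤ) ∣ (e : ℤ) * m (l x) := ⟨jm, by rw [h6, mul_comm]⟩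
      exact (hnz.dvd_or_dvd this).resolve_left (hdvd e he hne)
    obtain ⟨m', hm'⟩ := h7
    have hxy' : (x : ℕ) < (y : ℕ) := hxy
    have h8 : (n : ℤ) ∣ (e : ℤ) * (((y : ℕ) - (x : ℕ) : ℕ) : ℤ) * (o (l x) : ℤ) := by
      refine ⟨(e : ℤ) * ((y : ℕ) - (x : ℕ) : ℤ) * m' + j x - j y, ?_⟩
      rw [Nat.cast_sub hxy'.le]
      rw [hm'] at h5
      linear_combination -h5
    have hy := y.2
    rcases hnz.dvd_or_dvd h8 with h9 | h9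
    · rcases hnz.dvd_or_dvd h9 with h10 | h10
      · exact hdvd e he hne h10
      · exact hdvd _ (by omega) (by omega) h10
    · exact hdvd _ (ho _ (hl x)) (hon _ (hl x)) h9
  rcases lt_or_gt_of_ne hxy with h | h
  · exact main x y h hlxy
  · exact main y x h hlxy.symm

theorem st_CON (hQD : ST_QD) (hSEP : ST_SEP) (hBC : ST_BC) (hEXTF : ST_EXTF) (hRC : ST_RC)
    (hCA : ST_CA) (hPL : ST_PL) (hRPL : ST_RPL) (hEXK : ST_EXK) (hTRA : ST_TRA) (hORDP : ST_ORDP)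
    (hFRAC : ST_FRAC) (hUNF : ST_UNF) (hKUM : ST_KUM) (hBOT : ST_BOT) (hRK : ST_RK) : ST_CON := by
  classical
  intro F k Ω _ _ _ _ _ _ _ _ _ _ t hgen hfg D p _ σ E hE hσE hdense f ⟨ε₁, G, hε₁, hG, hH1⟩
    ⟨β, ε₂, hβ, hε₂, hH2⟩
  obtain ⟨H, ρ, hρ, hH, hroot, hsep⟩ := hSEP F k t hgen G hG
  obtain ⟨σ₀, hσ₀⟩ : ∃ σ₀ : F →+* ℂ_[p], σ₀ = σ.comp (algebraMap F k) := ⟨_, rfl⟩
  have hσ₀a : ∀ a, σ₀ a = σ (algebraMap F k a) := fun a => by rw [hσ₀]; rfl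
  have hσ₀E : ∀ a, σ₀ a ∈ E := fun a => by rw [hσ₀a]; exact hσE _
  rw [← hσ₀] at hdense
  obtain ⟨δ, hδ, w, hw, hw0, hw2⟩ := hQD F hfg p σ₀ E hE hσ₀E
  -- choice of `r`, `s`
  have hρ0 : (ρ.map σ₀).eval (σ t) ≠ 0 := by
    have h1 : aeval t ρ ≠ 0 := fun h => hρ ((transcendental_iff.1 hgen.1) ρ h)
    have h2 : (ρ.map σ₀).eval (σ t) = σ (aeval t ρ) := by
      rw [eval_map, hσ₀, aeval_def, hom_eval₂]
    rw [h2]
    exact (map_ne_zero σ).2 h1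
  obtain ⟨η, hη, hη2⟩ : ∃ η : ℝ, 0 < η ∧ ∀ α : ℂ_[p], ‖α - σ t‖ < η → (ρ.map σ₀).eval α ≠ 0 := by
    have hc : ContinuousAt (fun α => (ρ.map σ₀).eval α) (σ t) := (ρ.map σ₀).continuous.continuousAt
    have h1 := hc.eventually_ne hρ0
    rw [Metric.eventually_nhds_iff] at h1
    obtain ⟨η, hη, h2⟩ := h1
    exact ⟨η, hη, fun α hα => h2 (by rw [dist_eq_norm]; exact hα)⟩
  obtain ⟨κ, hκ, hκη, hκ1, hκ2⟩ : ∃ κ : ℝ, 0 < κ ∧ κ ≤ η ∧ κ ≤ ε₁ / 2 ∧ κ ≤ ε₂ / 2 :=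
    ⟨min η (min (ε₁ / 2) (ε₂ / 2)), lt_min hη (lt_min (by linarith) (by linarith)),
      min_le_left _ _, (min_le_right _ _).trans (min_le_left _ _),
      (min_le_right _ _).trans (min_le_right _ _)⟩
  have hwn : 0 < ‖w‖ := norm_pos_iff.2 hw0
  have h20 : (2 : ℂ_[p]) ≠ 0 := two_ne_zero
  have h2E : (2 : ℂ_[p]) ∈ E := by
    have := add_mem E.one_mem E.one_mem
    rwa [one_add_one_eq_two] at this
  obtain ⟨r, hr⟩ := hdense ((σ t + β) / 2) (div_mem (add_mem (hσE t) hβ) h2E) (κ / 2) (by linarith)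
  obtain ⟨s, hs⟩ := hdense ((σ t - β) / (2 * w))
    (div_mem (sub_mem (hσE t) hβ) (mul_mem h2E hw)) (κ / (2 * ‖w‖)) (by positivity)
  have hsw : ‖σ₀ s * w - (σ t - β) / 2‖ < κ / 2 := by
    have e : σ₀ s * w - (σ t - β) / 2 = (σ₀ s - (σ t - β) / (2 * w)) * w := by
      field_simp
    rw [e, norm_mul]
    calc ‖σ₀ s - (σ t - β) / (2 * w)‖ * ‖w‖ < κ / (2 * ‖w‖) * ‖w‖ :=
          mul_lt_mul_of_pos_right hs hwn
      _ = κ / 2 := by field_simp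
  have hα' : ‖σ₀ r + σ₀ s * w - σ t‖ < κ := by
    have e : σ₀ r + σ₀ s * w - σ t
        = (σ₀ r - (σ t + β) / 2) + (σ₀ s * w - (σ t - β) / 2) := by ring
    rw [e]
    exact lt_of_le_of_lt (norm_add_le _ _) (by linarith)
  have hβ' : ‖σ₀ r - σ₀ s * w - β‖ < κ := by
    have e : σ₀ r - σ₀ s * w - β
        = (σ₀ r - (σ t + β) / 2) - (σ₀ s * w - (σ t - β) / 2) := by ring
    rw [e]
    exact lt_of_le_of_lt (norm_sub_le _ _) (by linarith)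
  -- base change
  obtain ⟨sq, hsq⟩ : ∃ sq : Ω, sq ^ 2 = algebraMap F Ω δ :=
    IsAlgClosed.exists_pow_nat_eq _ (by norm_num)
  have hsqalg : IsAlgebraic F sq := by
    apply IsAlgebraic.of_pow (n := 2) (by norm_num)
    rw [hsq]
    exact isAlgebraic_algebraMap δ
  obtain ⟨v₀, hv₀⟩ : ∃ v₀ : Ω, v₀ = algebraMap F Ω r + algebraMap F Ω s * sq := ⟨_, rfl⟩
  have hv₀alg : IsAlgebraic F v₀ := by
    rw [hv₀]
    exact (isAlgebraic_algebraMap r).add ((isAlgebraic_algebraMap s).mul hsqalg)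
  obtain ⟨B, hBS, -⟩ := hBC F k Ω t hgen hfg D
    (insert sq (H.map (eval₂RingHom (algebraMap F Ω) v₀)).roots.toFinset) (by
      intro a ha
      rcases Finset.mem_insert.1 ha with rfl | ha
      · exact hsqalg
      · exact con_alg H v₀ a hv₀alg (Multiset.mem_toFinset.1 ha))
  obtain ⟨sq', hsq'⟩ := hBS sq (Finset.mem_insert_self _ _)
  have hsq2 : sq' ^ 2 = B.i δ := by
    apply (algebraMap B.F' Ω).injective
    rw [map_pow, hsq', hsq, B.hi]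
  have hcomp : (algebraMap B.F' Ω).comp B.i = algebraMap F Ω := RingHom.ext fun a => B.hi a
  have halg : ∀ a : B.F', ∃ G : F[X], G ≠ 0 ∧ G.eval₂ B.i a = 0 := by
    intro a
    obtain ⟨G, hG0, hG1⟩ := B.alg a
    refine ⟨G, hG0, ?_⟩
    apply (algebraMap B.F' Ω).injective
    rw [hom_eval₂, hcomp, map_zero]
    exact hG1
  obtain ⟨ι₁, E₁, hE₁, hle₁, hι₁, hι₁i, hι₁s⟩ := hEXTF F B.F' B.i B.fg halg p σ₀ E hE hσ₀E sq' w hw
    (fun G hG => con_sq δ hδ B.i σ₀ sq' hsq2 w hw2 G hG)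
  obtain ⟨ι₂, E₂', hE₂', hle₂, hι₂, hι₂i, hι₂s⟩ := hEXTF F B.F' B.i B.fg halg p σ₀ E hE hσ₀E sq' (-w)
    (neg_mem hw) (fun G hG => con_sq δ hδ B.i σ₀ sq' hsq2 (-w) (by rw [neg_sq, hw2]) G hG)
  haveI := hE₁
  haveI := hE₂'
  obtain ⟨E₂, hE₂e⟩ : ∃ E₂ : IntermediateField ℚ_[p] ℂ_[p], E₂ = E₁ ⊔ E₂' := ⟨_, rfl⟩
  have hE₂ : FiniteDimensional ℚ_[p] E₂ := by
    rw [hE₂e]
    exact IntermediateField.finiteDimensional_sup E₁ E₂'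
  have hleE : E ≤ E₂ := hle₁.trans (by rw [hE₂e]; exact le_sup_left)
  have hι₁2 : ∀ x, ι₁ x ∈ E₂ := fun x => (show E₁ ≤ E₂ by rw [hE₂e]; exact le_sup_left) (hι₁ x)
  have hι₂2 : ∀ x, ι₂ x ∈ E₂ := fun x => (show E₂' ≤ E₂ by rw [hE₂e]; exact le_sup_right) (hι₂ x)
  obtain ⟨v, hv⟩ : ∃ v : B.F', v = B.i r + B.i s * sq' := ⟨_, rfl⟩
  have hv1 : ι₁ v = σ₀ r + σ₀ s * w := by rw [hv, map_add, map_mul, hι₁i, hι₁i, hι₁s]
  have hv2 : ι₂ v = σ₀ r - σ₀ s * w := by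
    rw [hv, map_add, map_mul, hι₂i, hι₂i, hι₂s]; ring
  have hvΩ : algebraMap B.F' Ω v = v₀ := by
    rw [hv, hv₀, map_add, map_mul, B.hi, B.hi, hsq']
  have hv1E : ι₁ v ∈ E := by
    rw [hv1]; exact add_mem (hσ₀E r) (mul_mem (hσ₀E s) hw)
  have hv2E : ι₂ v ∈ E := by
    rw [hv2]; exact sub_mem (hσ₀E r) (mul_mem (hσ₀E s) hw)
  have hι₁c : ι₁.comp B.i = σ₀ := RingHom.ext fun a => hι₁i a
  have hρv : ρ.eval₂ B.i v ≠ 0 := by
    intro h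
    have h1 : (ρ.map σ₀).eval (ι₁ v) = 0 := by
      rw [eval_map, ← hι₁c, ← hom_eval₂, h, map_zero]
    rw [hv1] at h1
    exact hη2 _ (lt_of_lt_of_le hα' hκη) h1
  obtain ⟨hs1, hs2⟩ := hsep B.F' B.i v hρv
  have hH' : (H.map (mapRingHom B.i)).map (evalRingHom v) = H.map (eval₂RingHom B.i v) := by
    rw [Polynomial.map_map]
    congr 1
    refine ringHom_ext (fun a => ?_) ?_
    · simp
    · simp
  have hHn : (H.map (mapRingHom B.i)).natDegree = H.natDegree :=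
    natDegree_map_eq_of_injective (map_injective B.i B.i.injective) H
  have hHs : (H.map (eval₂RingHom B.i v)).Splits := by
    refine Splits.of_splits_map (algebraMap B.F' Ω) (IsAlgClosed.splits _) ?_
    intro a ha
    have h1 : (H.map (eval₂RingHom B.i v)).map (algebraMap B.F' Ω)
        = H.map (eval₂RingHom (algebraMap F Ω) v₀) := by
      rw [Polynomial.map_map]
      congr 1
      refine ringHom_ext (fun a => ?_) ?_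
      · simp [B.hi]
      · simp [hvΩ]
    rw [h1] at ha
    obtain ⟨a', ha'⟩ := hBS a (Finset.mem_insert_of_mem (Multiset.mem_toFinset.2 ha))
    exact ⟨a', ha'⟩
  obtain ⟨Λ, b, a, o, ho, hrc⟩ := hRC B.F' B.k' B.t' B.gen (H.map (mapRingHom B.i)) v
    (by rw [hH']; exact hs1) (by rw [hH', hHn]; exact hs2) (by rw [hH']; exact hHs)
  obtain ⟨c, c', ε₃, hε₃, hcc, hrc2⟩ := hrc p ι₁
  -- uniformizers
  obtain ⟨ϖ, hϖ, hϖ0, hϖ1, -⟩ := hUNF p E hE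
  obtain ⟨ϖ₂, hϖ₂, hϖ₂0, hϖ₂1, hu⟩ := hUNF p E₂ hE₂
  have hϖne : ϖ ≠ 0 := norm_pos_iff.1 hϖ0
  obtain ⟨e, he0, he⟩ : ∃ e : ℕ, 0 < e ∧ ‖ϖ‖ = ‖ϖ₂‖ ^ e := by
    obtain ⟨j, hj⟩ := hu ϖ (hleE hϖ) hϖne
    have hjpos : 0 < j := by
      by_contra hcon
      have h1 : (1 : ℝ) ≤ ‖ϖ₂‖ ^ j := by
        have h2 : ‖ϖ₂‖ ^ (0 : ℤ) ≤ ‖ϖ₂‖ ^ j :=
          (zpow_le_zpow_iff_right_of_lt_one₀ hϖ₂0 hϖ₂1).2 (not_lt.1 hcon)
        rwa [zpow_zero] at h2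
      rw [← hj] at h1
      linarith
    refine ⟨j.toNat, by omega, ?_⟩
    rw [hj, ← zpow_natCast, Int.toNat_of_nonneg hjpos.le]
  -- near `β`
  have hinf : ∃ ε : ℝ, 0 < ε ∧ ∀ σ' : k →+* ℂ_[p],
      (∀ a : F, σ' (algebraMap F k a) = ι₂ (B.i a)) → (∀ x, σ' x ∈ E) → ‖σ' t - ι₂ v‖ < ε →
      ∀ P : Place D p σ', f ∉ P.C := by
    refine ⟨ε₂ / 2, by linarith, fun σ' h1 h2 h3 P => hH2 σ' (fun a => ?_) h2 ?_ P⟩
    · rw [h1, hι₂i, hσ₀a]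
    · have e1 : σ' t - β = (σ' t - ι₂ v) + (ι₂ v - β) := by ring
      rw [e1]
      have h4 : ‖ι₂ v - β‖ < κ := by rw [hv2]; exact hβ'
      exact lt_of_le_of_lt (norm_add_le _ _) (by linarith)
  obtain ⟨f', hf'⟩ : ∃ f' : LL B.D', (f' : Ω) = f := ⟨⟨f, con_mem B f⟩, rfl⟩
  have hconst : ∀ c : B.k', f' ≠ algebraMap B.k' (LL B.D') c := by
    intro c0 hc0
    obtain ⟨ε, hε, h1⟩ := hinf
    obtain ⟨M, hM⟩ := exists_pow_lt_of_lt_one hε hϖ1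
    obtain ⟨σ', hσ1, hσ2, hσ3, hσ4, ⟨P'⟩⟩ := con_place hRK hEXK hTRA hgen B p ι₂ E E₂ hE₂ hleE hι₂2
      (fun a => by rw [hι₂i]; exact hσ₀E a) v hv2E (ϖ ^ M) (pow_mem hϖ M) (pow_ne_zero M hϖne)
    obtain ⟨P, hP⟩ := hRPL k B.k' Ω B.j D B.D' B.hj B.fix p σ' P'
    have h2 : f ∉ P.C := h1 (σ'.comp B.j) (fun a => by
      rw [RingHom.comp_apply, con_ji, hσ1]) hσ4 (by
      rw [RingHom.comp_apply, B.ht, hσ2, norm_pow]; exact hM) P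
    apply h2
    rw [(hP f f' hf'.symm).1, hc0]
    exact (P'.base c0).1
  -- the classes
  obtain ⟨n, hnN, hn⟩ := Nat.exists_infinite_primes (e + (∑ l ∈ Λ, o l) + Λ.card + 1)
  have hol : ∀ l ∈ Λ, o l < n := by
    intro l hl
    have := Finset.single_le_sum (f := o) (fun i _ => Nat.zero_le _) hl
    omega
  have key := fun l : B.F' => con_core hPL hKUM hBOT hCA hFRAC hORDP hgen B p ι₁ ι₂ E E₂ hE hE₂ hleE
    hι₂2 (fun a => by rw [hι₂i]; exact hσ₀E a) v hv2E f hinf ϖ hϖ hϖ0 hϖ1 f' hf' hconst (a l)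
    (algebraMap B.F' B.k' b) n hn.pos
  choose m C₀ εl hC₀ hεl hml hcore using key
  obtain ⟨ε₄, hε₄, hε₄l⟩ := con_min Λ εl (fun l _ => hεl l)
  obtain ⟨M₀, hM₀⟩ := exists_pow_lt_of_lt_one
    (show 0 < min (ε₁ / 2) (min ε₃ ε₄) from lt_min (by linarith) (lt_min hε₃ hε₄)) hϖ1
  refine con_num Λ ‖ϖ‖ ‖ϖ₂‖ hϖ0 hϖ₂0 hϖ₂1 e he0 he n hn (by omega) (by omega) o ho hol m c c' C₀
    (fun l hl => (hcc l hl).1) (fun l hl => (hcc l hl).2) (fun l _ => hC₀ l) ?_ M₀ ?_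
  · intro l _
    obtain ⟨w', hw', hw'0, h1⟩ := hml l
    obtain ⟨j, hj⟩ := hu w' hw' hw'0
    exact ⟨j, by rw [h1, hj]⟩
  · intro i
    have hMi : ‖ϖ‖ ^ (M₀ + (i : ℕ)) < min (ε₁ / 2) (min ε₃ ε₄) :=
      lt_of_le_of_lt (pow_le_pow_of_le_one hϖ0.le hϖ1.le (by omega)) hM₀
    have hM1 : ‖ϖ‖ ^ (M₀ + (i : ℕ)) < ε₁ / 2 := lt_of_lt_of_le hMi (min_le_left _ _)
    have hM3 : ‖ϖ‖ ^ (M₀ + (i : ℕ)) < ε₃ :=
      lt_of_lt_of_le hMi ((min_le_right _ _).trans (min_le_left _ _))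
    have hM4 : ‖ϖ‖ ^ (M₀ + (i : ℕ)) < ε₄ :=
      lt_of_lt_of_le hMi ((min_le_right _ _).trans (min_le_right _ _))
    have hM0 : 0 < ‖ϖ‖ ^ (M₀ + (i : ℕ)) := pow_pos hϖ0 _
    obtain ⟨σ', hσ1, hσ2, hσ3, hσ4, ⟨P'⟩⟩ := con_place hRK hEXK hTRA hgen B p ι₁ E E₂ hE₂ hleE hι₁2
      (fun a => by rw [hι₁i]; exact hσ₀E a) v hv1E (ϖ ^ (M₀ + (i : ℕ))) (pow_mem hϖ _)
      (pow_ne_zero _ hϖne)
    rw [norm_pow] at hσ2
    obtain ⟨P, hP⟩ := hRPL k B.k' Ω B.j D B.D' B.hj B.fix p σ' P'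
    obtain ⟨hfP, hev⟩ := hH1 (σ'.comp B.j) (fun a => by
      rw [RingHom.comp_apply, con_ji, hσ1, hι₁i, hσ₀a]) hσ4 (by
      rw [RingHom.comp_apply, B.ht]
      have e1 : σ' B.t' - σ t = (σ' B.t' - ι₁ v) + (ι₁ v - σ t) := by ring
      have h4 : ‖ι₁ v - σ t‖ < κ := by rw [hv1]; exact hα'
      rw [e1]
      refine lt_of_le_of_lt (norm_add_le _ _) ?_
      rw [hσ2]
      linarith) P
    have hfP' : f' ∈ P'.C := ((hP f f' hf'.symm).1).1 hfP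
    have hξ : P.φ ⟨f, hfP⟩ = P'.φ ⟨f', hfP'⟩ := (hP f f' hf'.symm).2 hfP hfP'
    have hr1 := hroot ℂ_[p] (σ'.comp B.j) _ hev
    rw [hξ] at hr1
    have hhom : (σ'.comp (aeval B.t').toRingHom).comp (mapRingHom B.i)
        = (σ'.comp B.j).comp (aeval t).toRingHom := by
      refine ringHom_ext (fun a => ?_) ?_
      · simp only [RingHom.comp_apply, coe_mapRingHom, map_C, AlgHom.toRingHom_eq_coe,
          RingHom.coe_coe, aeval_C, con_ji]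
      · simp only [RingHom.comp_apply, coe_mapRingHom, map_X, AlgHom.toRingHom_eq_coe,
          RingHom.coe_coe, aeval_X, B.ht]
    obtain ⟨l, hl, hl1, hl2⟩ := hrc2 σ' hσ1 (by rw [hσ2]; exact hM0) (by rw [hσ2]; exact hM3)
      (P'.φ ⟨f', hfP'⟩) (by rw [eval₂_map, hhom]; exact hr1)
    have hna : P'.φ ⟨f', hfP'⟩ ≠ σ' (a l) := by
      intro h
      rw [h, sub_self, norm_zero, hσ2] at hl1
      have := mul_pos (hcc l hl).1 (pow_pos hM0 (o l))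
      linarith
    have hnb : P'.φ ⟨f', hfP'⟩ ≠ σ' (algebraMap B.F' B.k' b) := by
      intro h
      rw [h, hσ1, sub_self, norm_zero] at hl2
      have := (hcc l hl).2
      linarith
    obtain ⟨w', hw', hw'0, h1⟩ := hcore l σ' hσ1 hσ3 (by rw [hσ2]; exact hM0)
      (by rw [hσ2]; exact lt_of_lt_of_le hM4 (hε₄l l hl)) P' hfP' hna hnb
    obtain ⟨j, hj⟩ := hu w' hw' hw'0
    refine ⟨l, hl, j, ?_⟩
    rw [hσ1, hl1, hl2, hσ2, hj] at h1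
    exact h1

end Pool.Agent.Helper22.TW
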